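import Mathlib
import Pool.Agent.Helper66.PFDense

/-!
Relative Borel classes and the local theorem: a set that is locally of additive class `α` is of
additive class `α` (Montgomery), in a relative form.
-/

set_option autoImplicit false

open Set Cardinal Ordinal TopologicalSpace

universe u v

namespace Pool.Agent.Helper66.SL

open Pool.Agent.Helper66.PF

/-- The trace of `A` on `Y` is the trace of a set of class `α`. -/
def RelSg {X : Type u} [TopologicalSpace X] (α : Ordinal.{0}) (Y A : Set X) : Prop :=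
  ∃ C, Sg α C ∧ C ∩ Y = A ∩ Y

theorem exists_ext {X : Type u} [TopologicalSpace X] {Y : Set X} {α : Ordinal.{0}} {A : Set Y}
    (h : Sg α A) : ∃ C : Set X, Sg α C ∧ (Subtype.val ⁻¹' C : Set Y) = A := by
  induction h with
  | isOpen h =>
    obtain ⟨C, hC, h⟩ := isOpen_induced_iff.1 h
    exact ⟨C, .isOpen hC, h⟩
  | union f β h1 h ih =>
    choose C hC hC' using ih
    refine ⟨⋃ n, (C n)ᶜ, Sg.union C β h1 hC, ?_⟩
    rw [preimage_iUnion]
    refine iUnion_congr fun n => ?_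
    rw [preimage_compl, hC']

theorem relSg_iff {X : Type u} [TopologicalSpace X] {Y A : Set X} {α : Ordinal.{0}} :
    RelSg α Y A ↔ Sg α (Subtype.val ⁻¹' A : Set Y) := by
  constructor
  · rintro ⟨C, hC, h⟩
    have h1 : (Subtype.val ⁻¹' A : Set Y) = Subtype.val ⁻¹' C := by
      rw [inter_comm C, inter_comm A, ← Subtype.preimage_val_eq_preimage_val_iff] at h
      exact h.symm
    rw [h1]
    exact hC.preimage continuous_subtype_val
  · intro h
    obtain ⟨C, hC, h'⟩ := exists_ext h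
    refine ⟨C, hC, ?_⟩
    rw [inter_comm C, inter_comm A]
    exact (Subtype.preimage_val_eq_preimage_val_iff _ _ _).1 h'

theorem RelSg.mono {X : Type u} [TopologicalSpace X] {Y Y' A : Set X} {α : Ordinal.{0}}
    (h : RelSg α Y A) (hY : Y' ⊆ Y) : RelSg α Y' A := by
  obtain ⟨C, hC, h⟩ := h
  refine ⟨C, hC, ?_⟩
  have h1 : C ∩ Y ∩ Y' = A ∩ Y ∩ Y' := by rw [h]
  rwa [inter_assoc, inter_assoc, inter_eq_self_of_subset_right hY] at h1

theorem RelSg.mono_left {X : Type u} [MetricSpace X] {Y A : Set X} {α β : Ordinal.{0}}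
    (h : RelSg α Y A) (hβ : α ≤ β) : RelSg β Y A := by
  obtain ⟨C, hC, h⟩ := h
  exact ⟨C, hC.mono hβ, h⟩

/-- The local theorem. -/
theorem RelSg.iUnion_open {X : Type u} [MetricSpace X] {K : Type v} {V : K → Set X}
    (hV : ∀ k, IsOpen (V k)) {α : Ordinal.{0}} (hα : 1 ≤ α) (hα' : α < ω₁) {Y A : Set X}
    (h : ∀ k, RelSg α (Y ∩ V k) A) : RelSg α (Y ∩ ⋃ k, V k) A := by
  choose C hC hCA using h
  set E : ℕ → K → Set X := fun n k =>
    {x | Metric.ball x (1 / ((n : ℝ) + 1)) ⊆ V k ∧ ∀ l, WellOrderingRel l k → x ∉ V l} with hE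
  set G : ℕ → K → Set X := fun n k => ⋃ x ∈ E n k, Metric.ball x (1 / ((n : ℝ) + 1) / 2) with hG
  have hpos : ∀ n : ℕ, (0 : ℝ) < 1 / ((n : ℝ) + 1) := fun n => by positivity
  have hGo : ∀ n k, IsOpen (G n k) := fun n k => isOpen_biUnion fun x _ => Metric.isOpen_ball
  have hGV : ∀ n k, G n k ⊆ V k := by
    intro n k x hx
    obtain ⟨y, hy, hxy⟩ := mem_iUnion₂.1 hx
    exact hy.1 (Metric.ball_subset_ball (by linarith [hpos n]) hxy)
  have hkey : ∀ n k l, WellOrderingRel l k → Disjoint (G n k) (G n l) := by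
    intro n k l hlk
    rw [disjoint_left]
    intro z hz hz'
    obtain ⟨x, hx, hxz⟩ := mem_iUnion₂.1 hz
    obtain ⟨y, hy, hyz⟩ := mem_iUnion₂.1 hz'
    apply hx.2 l hlk
    apply hy.1
    rw [Metric.mem_ball] at hxz hyz ⊢
    have h1 := dist_triangle_left x y z
    linarith
  have hdis : ∀ n, Pairwise (fun k l => Disjoint (G n k) (G n l)) := by
    intro n k l hkl
    rcases trichotomous_of (WellOrderingRel (α := K)) k l with h | h | h
    · exact (hkey n l k h).symm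
    · exact absurd h hkl
    · exact hkey n k l h
  have hcov : ∀ x ∈ ⋃ k, V k, ∃ n k, x ∈ G n k := by
    intro x hx
    have hne : {k | x ∈ V k}.Nonempty := by
      obtain ⟨k, hk⟩ := mem_iUnion.1 hx
      exact ⟨k, hk⟩
    obtain ⟨k, hk, hk'⟩ := WellFounded.has_min
      (IsWellFounded.wf (r := WellOrderingRel (α := K))) _ hne
    obtain ⟨ε, hε, hb⟩ := Metric.isOpen_iff.1 (hV k) x hk
    obtain ⟨n, hn⟩ := exists_nat_one_div_lt hε
    refine ⟨n, k, mem_iUnion₂.2 ⟨x, ⟨(Metric.ball_subset_ball hn.le).trans hb,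
      fun l hl hxl => hk' l hxl hl⟩, Metric.mem_ball_self (by linarith [hpos n])⟩⟩
  refine ⟨⋃ n : ℕ, ⋃ k ∈ (Set.univ : Set K), G n k ∩ C k,
    Sg.iUnion_nat fun n => Sg.iUnion_disjoint (hGo n) (hdis n) hα hα' (fun k _ => hC k), ?_⟩
  ext x
  simp only [mem_inter_iff, mem_iUnion, mem_univ, exists_prop, true_and]
  constructor
  · rintro ⟨⟨n, k, hxG, hxC⟩, hxY, -⟩
    have hxV := hGV n k hxG
    have : x ∈ A ∩ (Y ∩ V k) := by
      rw [← hCA k]
      exact ⟨hxC, hxY, hxV⟩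
    exact ⟨this.1, hxY, k, hxV⟩
  · rintro ⟨hxA, hxY, hx⟩
    obtain ⟨n, k, hxG⟩ := hcov x (mem_iUnion.2 hx)
    have : x ∈ C k ∩ (Y ∩ V k) := by
      rw [hCA k]
      exact ⟨hxA, hxY, hGV n k hxG⟩
    exact ⟨⟨n, k, hxG, this.1⟩, hxY, hx⟩

/-- Increasing unions of arbitrary sets. -/
theorem sg_of_increasing {X : Type u} [MetricSpace X] {Y : ℕ → Set X} (hY : Monotone Y)
    (hX : ∀ x, ∃ n, x ∈ Y n) {α : Ordinal.{0}} (hα : 1 ≤ α) {A : Set X}
    (h : ∀ n, RelSg α (Y n) A) : Sg (α + 2) A := by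
  choose C hC hCA using h
  have h1 : A = ⋃ m : ℕ, ⋂ n : ℕ, C (m + n) := by
    ext x
    simp only [mem_iUnion, mem_iInter]
    constructor
    · intro hx
      obtain ⟨m, hm⟩ := hX x
      refine ⟨m, fun n => ?_⟩
      have : x ∈ C (m + n) ∩ Y (m + n) := by
        rw [hCA]
        exact ⟨hx, hY (Nat.le_add_right m n) hm⟩
      exact this.1
    · rintro ⟨m, hm⟩
      obtain ⟨n, hn⟩ := hX x
      have : x ∈ A ∩ Y (m + n) := by
        rw [← hCA]
        exact ⟨hm n, hY (Nat.le_add_left n m) hn⟩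
      exact this.1
  rw [h1]
  exact Sg.iUnion_nat fun m => Sg.iInter hα fun n => hC _

end Pool.Agent.Helper66.SL
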