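import Mathlib
import Pool.Agent.Helper66.PFTree

/-!
Families of positive sets of small order for an `ω₁`-saturated ideal of large additivity.
-/

set_option autoImplicit false

open Set Cardinal Ordinal TopologicalSpace

universe u v

namespace Pool.Agent.Helper66.SL

open Pool.Agent.Helper66.PF

/-- A family of positive sets such that every point is in at most `μ` of them has at most `μ`
members. -/
theorem card_le_of_pos {ι : Type u} {I : Set (Set ι)} (hI : SatIdeal I) {μ : Cardinal.{u}}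
    (hμ : ℵ₀ ≤ μ) (hadd : ∀ N ⊆ I, #N ≤ Order.succ μ → ⋃₀ N ∈ I) {E : Type u} {P : E → Set ι}
    (hP : ∀ e, P e ∉ I) (hpt : ∀ i, #{e : E // i ∈ P e} ≤ μ) : #E ≤ μ := by
  by_contra hcon
  rw [not_le] at hcon
  set κ := Order.succ μ with hκdef
  have hκ : κ.IsRegular := isRegular_succ hμ
  have hle : #κ.ord.ToType ≤ #E := by
    rw [mk_ord_toType]
    exact Order.succ_le_of_lt hcon
  obtain ⟨g⟩ := hle
  set D : κ.ord.ToType → Set ι := fun b => {i | ∀ a, b ≤ a → i ∉ P (g a)} with hD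
  have hDmono : Monotone D := fun b b' hb i hi a ha => hi a (hb.trans ha)
  have hcov : ∀ i, ∃ b, i ∈ D b := by
    intro i
    have h1 : #{a | i ∈ P (g a)} < κ := by
      refine lt_of_le_of_lt ?_ (Order.lt_succ μ)
      refine le_trans ?_ (hpt i)
      refine Cardinal.mk_le_of_injective (f := fun a : {a | i ∈ P (g a)} =>
        (⟨g a, a.2⟩ : {e : E // i ∈ P e})) ?_
      intro a b hab
      exact Subtype.ext (g.injective (congrArg Subtype.val hab))
    obtain ⟨b, hb⟩ := exists_bound hκ h1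
    exact ⟨b, fun a ha hi => absurd (hb a hi) (not_lt.2 ha)⟩
  -- a maximal disjoint family
  obtain ⟨𝒜, h𝒜⟩ : ∃ 𝒜 : Set (Set ι), Maximal (fun 𝒜 : Set (Set ι) =>
      (∀ A ∈ 𝒜, A ∉ I ∧ ∃ b, A ⊆ D b) ∧ 𝒜.PairwiseDisjoint id) 𝒜 := by
    refine zorn_subset {𝒜 : Set (Set ι) |
      (∀ A ∈ 𝒜, A ∉ I ∧ ∃ b, A ⊆ D b) ∧ 𝒜.PairwiseDisjoint id} ?_
    intro c hc hch
    refine ⟨⋃₀ c, ⟨?_, ?_⟩, fun s hs => subset_sUnion_of_mem hs⟩
    · rintro A ⟨s, hs, hA⟩
      exact (hc hs).1 A hA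
    · rw [pairwiseDisjoint_sUnion hch.directedOn]
      exact fun s hs => (hc hs).2
  have hcount : 𝒜.Countable := hI.sat 𝒜 (fun A hA => (h𝒜.prop.1 A hA).1) h𝒜.prop.2
  have h2 : ∀ A : 𝒜, ∃ b, (A : Set ι) ⊆ D b := fun A => (h𝒜.prop.1 A A.2).2
  choose b hb using h2
  have h3 : #(range b) < κ := by
    have : Countable 𝒜 := hcount
    refine lt_of_le_of_lt ?_ (Order.lt_succ μ)
    refine le_trans ?_ hμ
    rw [le_aleph0_iff_set_countable]
    exact countable_range b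
  obtain ⟨b₀, hb₀⟩ := exists_bound hκ h3
  set R : Set ι := (⋃₀ 𝒜)ᶜ with hR
  have h4 : ∀ c, D c ∩ R ∈ I := by
    intro c
    by_contra hn
    have h5 : insert (D c ∩ R) 𝒜 ⊆ 𝒜 := by
      refine h𝒜.le_of_ge ⟨?_, ?_⟩ (subset_insert _ _)
      · rintro A (rfl | hA)
        · exact ⟨hn, c, inter_subset_left⟩
        · exact h𝒜.prop.1 A hA
      · refine h𝒜.prop.2.insert ?_
        intro A hA _
        refine disjoint_left.2 ?_
        rintro x ⟨-, hx⟩ hxA
        exact hx ⟨A, hA, hxA⟩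
    have h6 : D c ∩ R ∈ 𝒜 := h5 (mem_insert _ _)
    apply hn
    have h7 : D c ∩ R = ∅ := by
      ext x
      simp only [mem_empty_iff_false, iff_false]
      intro hx
      exact hx.2 ⟨_, h6, hx⟩
    rw [h7]
    exact hI.empty
  have hRI : R ∈ I := by
    have h5 : (⋃₀ range (fun c => D c ∩ R)) ∈ I := by
      refine hadd _ ?_ ?_
      · rintro _ ⟨c, rfl⟩
        exact h4 c
      · refine mk_range_le.trans ?_
        rw [mk_ord_toType]
    refine hI.mono _ h5 _ ?_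
    intro i hi
    obtain ⟨c, hc⟩ := hcov i
    exact ⟨_, ⟨c, rfl⟩, hc, hi⟩
  apply hP (g b₀)
  refine hI.mono _ hRI _ ?_
  rintro i hi ⟨A, hA, hiA⟩
  have h5 : i ∈ D b₀ := hDmono (hb₀ _ ⟨⟨A, hA⟩, rfl⟩).le (hb ⟨A, hA⟩ hiA)
  exact h5 b₀ le_rfl hi

end Pool.Agent.Helper66.SL
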