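import Mathlib
import Pool.Agent.Helper66.SL.Loc
import Pool.Agent.Helper66.SL.Pos

/-!
Families of sets of small density.
-/

set_option autoImplicit false

open Set Cardinal Ordinal TopologicalSpace

universe u v

namespace Pool.Agent.Helper66.SL

open Pool.Agent.Helper66.PF

/-- `A` is contained in the closure of a set of cardinality at most `μ`. -/
def Dn {X : Type u} [TopologicalSpace X] (μ : Cardinal.{u}) (A : Set X) : Prop :=
  ∃ D : Set X, #D ≤ μ ∧ A ⊆ closure D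

theorem Dn.mono {X : Type u} [TopologicalSpace X] {μ : Cardinal.{u}} {A B : Set X} (h : Dn μ A)
    (hB : B ⊆ A) : Dn μ B := by
  obtain ⟨D, h1, h2⟩ := h
  exact ⟨D, h1, hB.trans h2⟩

theorem Dn.mono_left {X : Type u} [TopologicalSpace X] {μ ν : Cardinal.{u}} {A : Set X}
    (h : Dn μ A) (hν : μ ≤ ν) : Dn ν A := by
  obtain ⟨D, h1, h2⟩ := h
  exact ⟨D, h1.trans hν, h2⟩

theorem Dn.iUnion {X : Type u} [TopologicalSpace X] {μ : Cardinal.{u}} (hμ : ℵ₀ ≤ μ)
    {J : Type v} (hJ : Cardinal.lift.{u} #J ≤ Cardinal.lift.{v} μ) {A : J → Set X}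
    (h : ∀ j, Dn μ (A j)) : Dn μ (⋃ j, A j) := by
  choose D hD hAD using h
  refine ⟨⋃ j, D j, ?_, ?_⟩
  · have h1 := mk_iUnion_le_sum_mk_lift (f := D)
    have h2 : Cardinal.sum (fun j => #(D j)) ≤ Cardinal.lift.{v} μ := by
      refine (Cardinal.sum_le_sum _ (fun _ => μ) hD).trans ?_
      rw [Cardinal.sum_const]
      refine (mul_le_mul_left hJ _).trans ?_
      rw [← Cardinal.lift_mul, Cardinal.mul_eq_self hμ]
    exact Cardinal.lift_le.1 (h1.trans h2)
  · exact iUnion_subset fun j => (hAD j).trans (closure_mono (subset_iUnion D j))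

/-- In a metric space the small dense set can be taken inside. -/
theorem Dn.exists_subset {X : Type u} [MetricSpace X] {μ : Cardinal.{u}} (hμ : ℵ₀ ≤ μ)
    {A : Set X} (h : Dn μ A) : ∃ D ⊆ A, #D ≤ μ ∧ A ⊆ closure D := by
  obtain ⟨D, hD, hAD⟩ := h
  have h1 : ∀ p : {p : D × ℕ // (A ∩ Metric.ball (p.1 : X) (1 / ((p.2 : ℝ) + 1))).Nonempty},
      ∃ x, x ∈ A ∩ Metric.ball (p.1.1 : X) (1 / ((p.1.2 : ℝ) + 1)) := fun p => p.2
  choose f hf using h1
  refine ⟨range f, ?_, ?_, ?_⟩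
  · rintro _ ⟨p, rfl⟩
    exact (hf p).1
  · refine mk_range_le.trans ((mk_subtype_le _).trans ?_)
    rw [mk_prod, mk_nat, Cardinal.lift_uzero, Cardinal.lift_aleph0]
    exact (mul_le_mul' hD hμ).trans (Cardinal.mul_eq_self hμ).le
  · intro x hx
    rw [Metric.mem_closure_iff]
    intro ε hε
    obtain ⟨n, hn⟩ := exists_nat_one_div_lt (half_pos hε)
    obtain ⟨d, hd, hxd⟩ := Metric.mem_closure_iff.1 (hAD hx) (1 / ((n : ℝ) + 1)) (by positivity)
    have hne : (A ∩ Metric.ball d (1 / ((n : ℝ) + 1))).Nonempty := ⟨x, hx, hxd⟩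
    refine ⟨f ⟨⟨⟨d, hd⟩, n⟩, hne⟩, ⟨_, rfl⟩, ?_⟩
    have h2 := (hf ⟨⟨⟨d, hd⟩, n⟩, hne⟩).2
    rw [Metric.mem_ball] at h2
    have h3 := dist_triangle_right x (f ⟨⟨⟨d, hd⟩, n⟩, hne⟩) d
    simp only at h2
    linarith

/-- Passage to a subspace. -/
theorem Dn.preimage {X : Type u} [MetricSpace X] {μ : Cardinal.{u}} (hμ : ℵ₀ ≤ μ)
    {A Y : Set X} (h : Dn μ (A ∩ Y)) : Dn μ (Subtype.val ⁻¹' A : Set Y) := by
  obtain ⟨D, hD1, hD2, hD3⟩ := h.exists_subset hμ
  refine ⟨Subtype.val ⁻¹' D, ?_, ?_⟩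
  · refine le_trans ?_ hD2
    refine Cardinal.mk_le_of_injective (f := fun a : (Subtype.val ⁻¹' D : Set Y) =>
      (⟨a.1.1, a.2⟩ : D)) ?_
    intro a b hab
    simp only [Subtype.mk.injEq] at hab
    exact Subtype.ext (Subtype.ext hab)
  · intro x hx
    rw [closure_subtype]
    have h1 : (Subtype.val '' (Subtype.val ⁻¹' D : Set Y)) = D := by
      rw [Subtype.image_preimage_val]
      exact inter_eq_self_of_subset_right (hD1.trans inter_subset_right)
    rw [h1]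
    exact hD3 ⟨hx, x.2⟩

/-- A set in which all separated subsets are small has small density. -/
theorem dense_of_separated {X : Type u} [MetricSpace X] {μ : Cardinal.{u}} (hμ : ℵ₀ ≤ μ)
    {Z : Set X} (h : ∀ ε : ℝ, 0 < ε → ∀ E ⊆ Z, E.Pairwise (fun x y => ε ≤ dist x y) → #E ≤ μ) :
    ∃ D : Set Z, #D ≤ μ ∧ Dense D := by
  have h1 : ∀ n : ℕ, ∃ E ⊆ Z, #E ≤ μ ∧ ∀ x ∈ Z, ∃ e ∈ E, dist x e < 1 / ((n : ℝ) + 1) := by
    intro n
    obtain ⟨E, hE⟩ : ∃ E : Set X, Maximal (fun E : Set X => E ⊆ Z ∧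
        E.Pairwise (fun x y => 1 / ((n : ℝ) + 1) ≤ dist x y)) E := by
      refine zorn_subset {E : Set X | E ⊆ Z ∧
        E.Pairwise (fun x y => 1 / ((n : ℝ) + 1) ≤ dist x y)} ?_
      intro c hc hch
      refine ⟨⋃₀ c, ⟨sUnion_subset fun s hs => (hc hs).1, ?_⟩, fun s hs => subset_sUnion_of_mem hs⟩
      rw [pairwise_sUnion hch.directedOn]
      exact fun s hs => (hc hs).2
    refine ⟨E, hE.prop.1, h _ (by positivity) E hE.prop.1 hE.prop.2, fun x hx => ?_⟩
    by_contra hcon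
    push Not at hcon
    have h2 : insert x E ⊆ E := by
      refine hE.le_of_ge ⟨insert_subset hx hE.prop.1, ?_⟩ (subset_insert _ _)
      refine hE.prop.2.insert fun e he _ => ⟨hcon e he, ?_⟩
      rw [dist_comm]
      exact hcon e he
    have h3 := hcon x (h2 (mem_insert _ _))
    rw [dist_self] at h3
    have : (0 : ℝ) < 1 / ((n : ℝ) + 1) := by positivity
    linarith
  choose E hE1 hE2 hE3 using h1
  refine ⟨⋃ n, Subtype.val ⁻¹' E n, ?_, ?_⟩
  · have h2 := mk_iUnion_le_sum_mk_lift (f := fun n : ℕ => (Subtype.val ⁻¹' E n : Set Z))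
    rw [Cardinal.lift_uzero] at h2
    refine h2.trans ?_
    have h3 : ∀ n, #(Subtype.val ⁻¹' E n : Set Z) ≤ μ := by
      intro n
      refine le_trans ?_ (hE2 n)
      refine Cardinal.mk_le_of_injective (f := fun a : (Subtype.val ⁻¹' E n : Set Z) =>
        (⟨a.1.1, a.2⟩ : E n)) ?_
      intro a b hab
      simp only [Subtype.mk.injEq] at hab
      exact Subtype.ext (Subtype.ext hab)
    refine (Cardinal.sum_le_sum _ (fun _ => μ) h3).trans ?_
    rw [Cardinal.sum_const, mk_nat, Cardinal.lift_aleph0, Cardinal.lift_uzero]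
    exact (mul_le_mul' hμ le_rfl).trans (Cardinal.mul_eq_self hμ).le
  · intro x
    rw [Metric.mem_closure_iff]
    intro ε hε
    obtain ⟨n, hn⟩ := exists_nat_one_div_lt hε
    obtain ⟨e, he, hxe⟩ := hE3 n x x.2
    exact ⟨⟨e, hE1 n he⟩, mem_iUnion.2 ⟨n, he⟩, hxe.trans hn⟩

/-- A uniform bound for the classes of the unions of the families in the ideal. -/
theorem exists_uniform {X : Type u} [MetricSpace X] {ι : Type u} {F : ι → Set X}
    {κ : Cardinal.{u}} (hκ : QuasiMeasurable κ)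
    (hadd : ∀ N ⊆ Nul F, #N < κ → ⋃₀ N ∈ Nul F) :
    ∃ α : Ordinal.{0}, α < ω₁ ∧ ∀ T ∈ Nul F, Sg α (⋃ i ∈ T, F i) := by
  by_contra hcon
  push Not at hcon
  have hcon' : ∀ j : (ω₁ : Ordinal.{0}).ToType, ∃ T ∈ Nul F,
      ¬ Sg (ToType.toOrd j : Ordinal.{0}) (⋃ i ∈ T, F i) := fun j =>
    hcon _ (mem_Iio.1 (ToType.toOrd j).2)
  choose T hT hT' using hcon'
  have h1 : (⋃₀ range T) ∈ Nul F := by
    refine hadd _ ?_ (lt_of_le_of_lt ?_ hκ.aleph_one_lt)
    · rintro _ ⟨j, rfl⟩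
      exact hT j
    · have h6 : Cardinal.lift.{0} #(range T) ≤ Cardinal.lift.{u} #(ω₁ : Ordinal.{0}).ToType :=
        Cardinal.mk_range_le_lift
      rw [mk_toType, card_omega] at h6
      simpa using h6
  obtain ⟨α, hα, h⟩ := h1
  have h2 := h (T (ToType.mk ⟨α, hα⟩)) (subset_sUnion_of_mem ⟨_, rfl⟩)
  apply hT' (ToType.mk ⟨α, hα⟩)
  simpa using h2

theorem pfb_preimage {X : Type u} [MetricSpace X] {ι : Type u} {F : ι → Set X} (hF : PFB F)
    (Y : Set X) : PFB (fun i => (Subtype.val ⁻¹' F i : Set Y)) := by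
  refine ⟨fun x => hF.fin x, fun T => ?_⟩
  have h1 : (⋃ i ∈ T, (Subtype.val ⁻¹' F i : Set Y)) = Subtype.val ⁻¹' (⋃ i ∈ T, F i) := by
    simp only [preimage_iUnion]
  rw [h1]
  let _ := borel X
  let _ := borel Y
  have : BorelSpace X := ⟨rfl⟩
  have : BorelSpace Y := ⟨rfl⟩
  have h5 : Measurable (Subtype.val : Y → X) := continuous_subtype_val.borel_measurable
  exact h5 (hF.meas T)

end Pool.Agent.Helper66.SL
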