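import Mathlib
import Pool.Agent.Helper66.SL.Dens

/-!
Point-finite Borel-additive families of sets of small density are of bounded class.
-/

set_option autoImplicit false

open Set Cardinal Ordinal TopologicalSpace

universe u v

namespace Pool.Agent.Helper66.SL

open Pool.Agent.Helper66.PF

theorem step1 {X : Type u} [MetricSpace X] {ι : Type u} {F : ι → Set X} (hF : PFB F)
    {μ : Cardinal.{u}} (hμ : ℵ₀ ≤ μ) (hd : ∀ i, Dn μ (F i))
    (hq : ∀ κ : Cardinal.{u}, QuasiMeasurable κ → κ ≤ #ι → μ < κ) :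
    ∃ α : Ordinal.{0}, α < ω₁ ∧ ∀ T : Set ι, Sg α (⋃ i ∈ T, F i) := by
  by_contra hunb
  have huniv : Set.univ ∉ Nul F := by
    rintro ⟨α, hα, h1⟩
    exact hunb ⟨α, hα, fun T => h1 T (subset_univ _)⟩
  have hI : SatIdeal (Nul F) := Nul.satIdeal hF huniv
  obtain ⟨κ, hκ, hκι, hadd, -⟩ := hI.exists_add
  have hsucc : Order.succ μ < κ := hκ.isSuccLimit.succ_lt (hq κ hκ hκι)
  obtain ⟨α₀, hα₀, hunif⟩ := exists_uniform hκ hadd
  have hα₀1 : 1 ≤ α₀ := (hunif ∅ hI.empty).one_le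
  -- the open set of local boundedness
  set 𝒱 : Set (Set X) := {V | IsOpen V ∧ ∀ T : Set ι, Sg α₀ (V ∩ ⋃ i ∈ T, F i)} with h𝒱
  set U : Set X := ⋃ V : 𝒱, (V : Set X) with hU
  have hUo : IsOpen U := isOpen_iUnion fun V => V.2.1
  have hUb : ∀ T : Set ι, Sg α₀ (U ∩ ⋃ i ∈ T, F i) := by
    intro T
    have h1 : RelSg α₀ (Set.univ ∩ ⋃ V : 𝒱, (V : Set X)) (⋃ i ∈ T, F i) := by
      refine RelSg.iUnion_open (fun V => V.2.1) hα₀1 hα₀ fun V => ?_
      refine ⟨(V : Set X) ∩ ⋃ i ∈ T, F i, V.2.2 T, ?_⟩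
      ext x
      simp only [mem_inter_iff, mem_univ, true_and]
      tauto
    obtain ⟨C, hC, h2⟩ := h1
    rw [univ_inter] at h2
    have h3 : U ∩ ⋃ i ∈ T, F i = C ∩ U := by rw [h2, inter_comm]
    rw [h3]
    exact hC.inter ((Sg.isOpen hUo).mono hα₀1)
  -- the positive sets
  have hpos : ∀ B : Set X, IsOpen B → (B ∩ Uᶜ).Nonempty →
      {i | (F i ∩ (B ∩ Uᶜ)).Nonempty} ∉ Nul F := by
    rintro B hB ⟨x, hxB, hxU⟩ hn
    apply hxU
    refine mem_iUnion.2 ⟨⟨B, hB, fun T => ?_⟩, hxB⟩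
    have h1 : B ∩ ⋃ i ∈ T, F i = (B ∩ (U ∩ ⋃ i ∈ T, F i)) ∪
        (B ∩ ⋃ i ∈ T ∩ {i | (F i ∩ (B ∩ Uᶜ)).Nonempty}, F i) := by
      ext y
      simp only [mem_inter_iff, mem_iUnion, mem_union, exists_prop, mem_ofPred_eq]
      constructor
      · rintro ⟨hy, i, hi, hyi⟩
        by_cases hyU : y ∈ U
        · exact Or.inl ⟨hy, hyU, i, hi, hyi⟩
        · exact Or.inr ⟨hy, i, ⟨hi, y, hyi, hy, hyU⟩, hyi⟩
      · rintro (⟨hy, -, i, hi, hyi⟩ | ⟨hy, i, ⟨hi, -⟩, hyi⟩)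
        · exact ⟨hy, i, hi, hyi⟩
        · exact ⟨hy, i, hi, hyi⟩
    rw [h1]
    have hB' : Sg α₀ B := (Sg.isOpen hB).mono hα₀1
    exact (hB'.inter (hUb T)).union' (hB'.inter (hunif _ (hI.mono _ hn _ inter_subset_right)))
  -- small density of the complement
  obtain ⟨D, hDμ, hD⟩ : ∃ D : Set (Uᶜ : Set X), #D ≤ μ ∧ Dense D := by
    refine dense_of_separated hμ fun ε hε E hE hEs => ?_
    refine card_le_of_pos hI hμ (fun N hN hNμ => hadd N hN (hNμ.trans_lt hsucc))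
      (P := fun e : E => {i | (F i ∩ (Metric.ball (e : X) (ε / 2) ∩ Uᶜ)).Nonempty})
      (fun e => hpos _ Metric.isOpen_ball ⟨e, Metric.mem_ball_self (by linarith), hE e.2⟩) ?_
    intro i
    obtain ⟨D, hD1, hD2⟩ := hd i
    refine le_trans ?_ hD1
    have h1 : ∀ e : {e : E // i ∈ {i | (F i ∩ (Metric.ball (e : X) (ε / 2) ∩ Uᶜ)).Nonempty}},
        ∃ d ∈ D, dist d e.1.1 < ε / 2 := by
      rintro ⟨e, x, hx, hxe, -⟩
      rw [Metric.mem_ball] at hxe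
      obtain ⟨d, hd, hxd⟩ := Metric.mem_closure_iff.1 (hD2 hx) (ε / 2 - dist x e) (by linarith)
      refine ⟨d, hd, ?_⟩
      have := dist_triangle d x e
      rw [dist_comm d x] at this
      linarith
    choose d hdD hde using h1
    refine Cardinal.mk_le_of_injective (f := fun e => (⟨d e, hdD e⟩ : D)) ?_
    intro e e' hee
    simp only [Subtype.mk.injEq] at hee
    have h2 := hde e
    have h3 := hde e'
    rw [← hee] at h3
    apply Subtype.ext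
    apply Subtype.ext
    by_contra hne
    have h4 := hEs e.1.2 e'.1.2 hne
    have h5 := dist_triangle_left e.1.1 e'.1.1 (d e)
    linarith
  -- the dichotomy for the complement
  rcases dichotomy (pfb_preimage hF Uᶜ) with ⟨α₁, hα₁, h1⟩ | ⟨⟨κ', hκ', hκι', -, h2⟩, -⟩
  · apply hunb
    have hα₁1 : 1 ≤ α₁ := (h1 ∅).one_le
    refine ⟨max α₀ (max α₁ (1 + 1)), max_lt hα₀ (max_lt hα₁ (add_one_lt_w1 one_lt_w1)),
      fun T => ?_⟩
    have h3 : RelSg α₁ Uᶜ (⋃ i ∈ T, F i) := by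
      rw [relSg_iff]
      have := h1 T
      simpa only [preimage_iUnion] using this
    obtain ⟨C, hC, h4⟩ := h3
    have h5 : (⋃ i ∈ T, F i) = (U ∩ ⋃ i ∈ T, F i) ∪ (C ∩ Uᶜ) := by
      rw [h4, inter_comm _ Uᶜ, ← union_inter_distrib_right, union_compl_self, univ_inter]
    rw [h5]
    refine ((hUb T).mono (le_max_left _ _)).union' ?_
    have h6 : Sg (1 + 1) Uᶜ := (Sg.isOpen hUo).compl
    exact (hC.mono ((le_max_left _ _).trans (le_max_right _ _))).inter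
      (h6.mono ((le_max_right _ _).trans (le_max_right _ _)))
  · exact absurd ((hq κ' hκ' hκι').trans (h2 D hD)) (not_lt.2 hDμ)

/-- The relative version. -/
theorem step1_rel {X : Type u} [MetricSpace X] {ι : Type u} {F : ι → Set X} (hF : PFB F)
    {μ : Cardinal.{u}} (hμ : ℵ₀ ≤ μ) {Y : Set X} (hd : ∀ i, Dn μ (F i ∩ Y))
    (hq : ∀ κ : Cardinal.{u}, QuasiMeasurable κ → κ ≤ #ι → μ < κ) :
    ∃ α : Ordinal.{0}, α < ω₁ ∧ ∀ T : Set ι, RelSg α Y (⋃ i ∈ T, F i) := by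
  obtain ⟨α, hα, h⟩ := step1 (pfb_preimage hF Y) hμ (fun i => (hd i).preimage hμ) hq
  refine ⟨α, hα, fun T => ?_⟩
  rw [relSg_iff]
  have := h T
  simpa only [preimage_iUnion] using this

end Pool.Agent.Helper66.SL
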