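import Mathlib
import Pool.Agent.Helper66.SL.Step

/-!
Point-finite Borel-additive families of sets that are `σ`-locally of small density.
-/

set_option autoImplicit false

open Set Cardinal Ordinal TopologicalSpace

universe u v

namespace Pool.Agent.Helper66.SL

open Pool.Agent.Helper66.PF

/-- `A` is the union of countably many sets `Z n` such that every point of `Z n` has an open
neighbourhood `V` for which `V ∩ Z n` is contained in the closure of a set of cardinality at most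
`μ`. -/
def SigmaLocDn {X : Type u} [TopologicalSpace X] (μ : Cardinal.{u}) (A : Set X) : Prop :=
  ∃ Z : ℕ → Set X, A = (⋃ n, Z n) ∧
    ∀ n, ∀ z ∈ Z n, ∃ V, IsOpen V ∧ z ∈ V ∧ ∃ D : Set X, #D ≤ μ ∧ V ∩ Z n ⊆ closure D

theorem main_aux {X : Type u} [MetricSpace X] {ι : Type u} {F : ι → Set X} (hF : PFB F)
    {μ : Cardinal.{u}} (hμ : ℵ₁ ≤ μ) (hd : ∀ i, SigmaLocDn μ (F i))
    (hq : ∀ κ : Cardinal.{u}, QuasiMeasurable κ → κ ≤ #ι → μ < κ) :
    ∃ α : Ordinal.{0}, α < ω₁ ∧ ∀ T : Set ι, Sg α (⋃ i ∈ T, F i) := by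
  rcases isEmpty_or_nonempty X with hX | ⟨⟨x₀⟩⟩
  · refine ⟨1, one_lt_w1, fun T => ?_⟩
    have h0 : (⋃ i ∈ T, F i) = ∅ := Set.eq_empty_of_isEmpty _
    rw [h0]
    exact sg_empty le_rfl
  have hμ0 : ℵ₀ ≤ μ := (Cardinal.aleph0_lt_aleph_one.le).trans hμ
  choose Z hZ hZd using hd
  have hpos : ∀ n : ℕ, (0 : ℝ) < 1 / ((n : ℝ) + 1) := fun n => by positivity
  set G : ι → ℕ → ℕ → Set X := fun i n j =>
    {z | z ∈ Z i j ∧ Dn μ (Metric.ball z (1 / ((n : ℝ) + 1)) ∩ Z i j)} with hG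
  set Y : ℕ → Set X := fun n => {y | ∀ i, y ∈ F i → ∃ j ≤ n, y ∈ G i n j} with hY
  have hYm : Monotone Y := by
    intro n m hnm y hy i hi
    obtain ⟨j, hj, hyj, hD⟩ := hy i hi
    refine ⟨j, hj.trans hnm, hyj, hD.mono (inter_subset_inter_left _
      (Metric.ball_subset_ball ?_))⟩
    apply one_div_le_one_div_of_le (by positivity)
    have : (n : ℝ) ≤ m := by exact_mod_cast hnm
    linarith
  have hYX : ∀ x, ∃ n, x ∈ Y n := by
    intro x
    have h1 : ∀ i, ∃ n, x ∈ F i → ∃ j ≤ n, x ∈ G i n j := by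
      intro i
      by_cases hx : x ∈ F i
      · have hx' := hx
        rw [hZ i, mem_iUnion] at hx'
        obtain ⟨j, hj⟩ := hx'
        obtain ⟨V, hV, hxV, D, hD1, hD2⟩ := hZd i j x hj
        obtain ⟨ε, hε, hb⟩ := Metric.isOpen_iff.1 hV x hxV
        obtain ⟨n, hn⟩ := exists_nat_one_div_lt hε
        refine ⟨max n j, fun _ => ⟨j, le_max_right _ _, hj, D, hD1, ?_⟩⟩
        refine Subset.trans (inter_subset_inter_left _ ?_) hD2
        refine (Metric.ball_subset_ball ?_).trans hb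
        refine le_trans ?_ hn.le
        apply one_div_le_one_div_of_le (by positivity)
        have : (n : ℝ) ≤ (max n j : ℕ) := by exact_mod_cast le_max_left n j
        linarith
      · exact ⟨0, fun h => absurd h hx⟩
    choose n hn using h1
    refine ⟨(hF.fin x).toFinset.sup n, fun i hi => ?_⟩
    have h2 : n i ≤ (hF.fin x).toFinset.sup n :=
      Finset.le_sup (f := n) (by simpa using hi)
    obtain ⟨j, hj, hxj, hD⟩ := hn i hi
    refine ⟨j, hj.trans h2, hxj, hD.mono (inter_subset_inter_left _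
      (Metric.ball_subset_ball ?_))⟩
    apply one_div_le_one_div_of_le (by positivity)
    have : ((n i : ℕ) : ℝ) ≤ ((hF.fin x).toFinset.sup n : ℕ) := by exact_mod_cast h2
    linarith
  -- small balls
  have hsmall : ∀ n (x : X) i,
      Dn μ (F i ∩ (Y n ∩ Metric.ball x (1 / ((n : ℝ) + 1) / 2))) := by
    intro n x i
    have h1 : Dn μ (⋃ j : ℕ, G i n j ∩ Metric.ball x (1 / ((n : ℝ) + 1) / 2)) := by
      refine Dn.iUnion hμ0 ?_ fun j => ?_
      · rw [mk_nat, Cardinal.lift_aleph0]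
        simpa using hμ0
      · rcases (G i n j ∩ Metric.ball x (1 / ((n : ℝ) + 1) / 2)).eq_empty_or_nonempty with
          h0 | ⟨z, hz, hzx⟩
        · rw [h0]
          exact ⟨∅, by simp, empty_subset _⟩
        · refine hz.2.mono ?_
          rintro y ⟨hy, hyx⟩
          refine ⟨?_, hy.1⟩
          rw [Metric.mem_ball] at hzx hyx ⊢
          have := dist_triangle_right y z x
          linarith
    refine h1.mono ?_
    rintro y ⟨hyi, hyY, hyx⟩
    obtain ⟨j, -, hj⟩ := hyY i hyi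
    exact mem_iUnion.2 ⟨j, hj, hyx⟩
  -- the class is uniform on the small balls
  have hunif : ∀ n, ∃ γ : Ordinal.{0}, γ < ω₁ ∧ ∀ (x : X) (T : Set ι),
      RelSg γ (Y n ∩ Metric.ball x (1 / ((n : ℝ) + 1) / 2)) (⋃ i ∈ T, F i) := by
    intro n
    by_contra hcon
    push Not at hcon
    have hcon' : ∀ j : (ω₁ : Ordinal.{0}).ToType, ∃ (x : X) (T : Set ι),
        ¬ RelSg (ToType.toOrd j : Ordinal.{0})
          (Y n ∩ Metric.ball x (1 / ((n : ℝ) + 1) / 2)) (⋃ i ∈ T, F i) := fun j =>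
      hcon _ (mem_Iio.1 (ToType.toOrd j).2)
    choose x T hxT using hcon'
    obtain ⟨γ, hγ, h1⟩ := step1_rel hF hμ0
      (Y := ⋃ j, Y n ∩ Metric.ball (x j) (1 / ((n : ℝ) + 1) / 2)) (fun i => by
        rw [inter_iUnion]
        refine Dn.iUnion hμ0 ?_ fun j => hsmall n (x j) i
        rw [mk_toType, card_omega]
        simpa using hμ) hq
    apply hxT (ToType.mk ⟨γ, hγ⟩)
    have h2 := (h1 (T (ToType.mk ⟨γ, hγ⟩))).mono
      (subset_iUnion (fun j => Y n ∩ Metric.ball (x j) (1 / ((n : ℝ) + 1) / 2))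
        (ToType.mk ⟨γ, hγ⟩))
    simpa using h2
  choose γ hγ hγ' using hunif
  have hsup : (⨆ n, γ n) < ω₁ := iSup_lt_w1 hγ
  refine ⟨(⨆ n, γ n) + 2, ?_, fun T => ?_⟩
  · have := add_one_lt_w1 (add_one_lt_w1 hsup)
    rwa [add_assoc, one_add_one_eq_two] at this
  · have h1 : ∀ n, RelSg (γ n) (Y n) (⋃ i ∈ T, F i) := by
      intro n
      obtain ⟨C, hC, -⟩ := hγ' n x₀ T
      have h2 := RelSg.iUnion_open (K := X)
        (V := fun x => Metric.ball x (1 / ((n : ℝ) + 1) / 2))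
        (fun x => Metric.isOpen_ball) hC.one_le (hγ n) (fun x => hγ' n x T)
      have h3 : (⋃ x : X, Metric.ball x (1 / ((n : ℝ) + 1) / 2)) = Set.univ := by
        ext y
        simp only [mem_iUnion, mem_univ, iff_true]
        exact ⟨y, Metric.mem_ball_self (by linarith [hpos n])⟩
      rwa [h3, inter_univ] at h2
    obtain ⟨C, hC, -⟩ := h1 0
    exact sg_of_increasing hYm hYX (hC.one_le.trans (le_iSup_w1 γ 0))
      (fun n => (h1 n).mono_left (le_iSup_w1 γ n))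

/-- The main theorem for indexed families. -/
theorem main {X : Type u} [MetricSpace X] {ι : Type u} {F : ι → Set X} (hF : PFB F)
    {μ : Cardinal.{u}} (hd : ∀ i, SigmaLocDn μ (F i)) :
    (∃ α : Ordinal.{0}, α < ω₁ ∧ ∀ T : Set ι, Sg α (⋃ i ∈ T, F i)) ∨
    ∃ κ : Cardinal.{u}, QuasiMeasurable κ ∧ κ ≤ μ ∧ κ ≤ #ι ∧ κ ≤ 𝔠 := by
  by_contra hcon
  push Not at hcon
  obtain ⟨h1, h2⟩ := hcon
  rcases dichotomy hF with ⟨α, hα, h3⟩ | ⟨⟨κ₀, hκ₀, hκ₀ι, hκ₀c, -⟩, -⟩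
  · obtain ⟨T, hT⟩ := h1 α hα
    exact hT (h3 T)
  · have h3 : ∀ κ : Cardinal.{u}, QuasiMeasurable κ → κ ≤ #ι → max μ ℵ₁ < κ := by
      intro κ hκ hκι
      refine max_lt ?_ hκ.aleph_one_lt
      by_contra h4
      rw [not_lt] at h4
      have h5 := h2 κ hκ h4 hκι
      have h6 : κ₀ ≤ μ := hκ₀c.trans (h5.le.trans h4)
      exact absurd hκ₀c (not_le.2 (h2 κ₀ hκ₀ h6 hκ₀ι))
    obtain ⟨α, hα, h4⟩ := main_aux hF (le_max_right μ ℵ₁) (fun i => by
      obtain ⟨Z, hZ, hZd⟩ := hd i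
      refine ⟨Z, hZ, fun n z hz => ?_⟩
      obtain ⟨V, hV, hzV, D, hD1, hD2⟩ := hZd n z hz
      exact ⟨V, hV, hzV, D, hD1.trans (le_max_left _ _), hD2⟩) h3
    obtain ⟨T, hT⟩ := h1 α hα
    exact hT (h4 T)

/-- The theorem for families of sets, with any hierarchy satisfying the usual equations. -/
theorem main_set (X : Type u) [MetricSpace X] (𝒳 : Set (Set X))
    (hfin : ∀ x : X, {A : Set X | A ∈ 𝒳 ∧ x ∈ A}.Finite)
    (hadd : ∀ 𝒴 ⊆ 𝒳, @MeasurableSet X (borel X) (⋃₀ 𝒴))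
    (μ : Cardinal.{u}) (hμ : ∀ A ∈ 𝒳, SigmaLocDn μ A)
    (S : Ordinal.{0} → Set (Set X)) (hS1 : S 1 = {U : Set X | IsOpen U})
    (hS2 : ∀ α : Ordinal.{0}, 1 < α → α < (Cardinal.aleph 1).ord →
        S α = {A : Set X | ∃ f : ℕ → Set X, A = (⋃ n, f n) ∧
          ∀ n, ∃ β : Ordinal.{0}, 1 ≤ β ∧ β < α ∧ (f n)ᶜ ∈ S β}) :
    (∃ α : Ordinal.{0}, 1 ≤ α ∧ α < (Cardinal.aleph 1).ord ∧ ∀ 𝒴 ⊆ 𝒳, ⋃₀ 𝒴 ∈ S α) ∨
    ∃ κ : Cardinal.{u}, QuasiMeasurable κ ∧ κ.IsRegular ∧ Order.IsSuccLimit κ ∧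
      κ ≤ μ ∧ κ ≤ #𝒳 ∧ κ ≤ 𝔠 := by
  have hF : PFB (fun A : 𝒳 => (A : Set X)) := by
    refine ⟨fun x => ?_, fun T => ?_⟩
    · refine ((hfin x).preimage (f := (Subtype.val : 𝒳 → Set X))
        Subtype.val_injective.injOn).subset ?_
      intro A hA
      exact ⟨A.2, hA⟩
    · have := hadd (Subtype.val '' T) (by rintro _ ⟨A, -, rfl⟩; exact A.2)
      rwa [sUnion_image] at this
  rcases main hF (fun A => hμ A A.2) with ⟨α, hα, h⟩ | ⟨κ, hκ, h1, h2, h3⟩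
  · left
    have hα' : α < (Cardinal.aleph 1).ord := by simpa using hα
    refine ⟨α, (h ∅).one_le, hα', fun 𝒴 h𝒴 => ?_⟩
    rw [eq_sg S hS1 hS2 α (h ∅).one_le hα']
    have h5 := h (Subtype.val ⁻¹' 𝒴)
    have h6 : (⋃ i ∈ (Subtype.val ⁻¹' 𝒴 : Set 𝒳), (i : Set X)) = ⋃₀ 𝒴 := by
      ext x
      simp only [mem_iUnion, mem_preimage, exists_prop, mem_sUnion]
      constructor
      · rintro ⟨A, hA, hx⟩
        exact ⟨A, hA, hx⟩
      · rintro ⟨A, hA, hx⟩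
        exact ⟨⟨A, h𝒴 hA⟩, hA, hx⟩
    rwa [h6] at h5
  · exact Or.inr ⟨κ, hκ, hκ.isRegular, hκ.isSuccLimit, h1, h2, h3⟩

end Pool.Agent.Helper66.SL
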